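import Pool.Agent.K6.H72.FL.Hyp2

/-!
# The `C^r` closing lemma for diffeomorphisms which are hyperbolic transversally to the orbits of an
action of `ℝᵏ × 𝕋ˡ`, with monotone dynamics along the orbits

`V n = ℝⁿ`, `DiffM n N r = Diff^r(N)`, `strongTop n N r` is its strong (Whitney) `C^r` topology (the
usual one, `N` being compact), `IsPer G z`: `z` is periodic for `G` (`Pool/Agent/H718R2/G0.lean`).

From `Pool/Agent/K6/H72/FL/Act.lean` and `Pool/Agent/K6/H72/FL/Hyp2.lean`:
* `CrAction k l n N r A`: `A` is an action of `ℝᵏ × 𝕋ˡ` on `N`, jointly of class `C^r`, written as an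
  action of `ℝᵏ × ℝˡ` for which `(0, b)`, `b ∈ ℤˡ`, acts trivially; `tang A x p` is the velocity of
  `t ↦ A (t p) x` at `t = 0`;
* `LeafMap A F x`: `F` maps the orbit of `x` to the orbit of `F x` by
  `(s, b) ↦ (ψ₁(s₁), …, ψ_k(s_k), b + c(s))`, with continuous nondecreasing functions `ψ_j` of one real
  variable, `ψ_j(0) = 0`, and an arbitrary `c : ℝᵏ → ℝˡ` (both depend on `x`). For `k = 1`, `l = 0`:
  `F` maps the oriented orbits of a flow to oriented orbits;
* `HypAcrossAct F A K e B`: `K` is closed, `F(K) ⊆ K`, the action is locally free on `K`, `LeafMap` holds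
  near `K`, and on `K` the map `F` is hyperbolic transversally to the orbits: the continuous quadratic
  forms `Q_x(v) = B_x (De v, De v)` on the tangent spaces, of any signature, do not change in the
  directions of the orbits, and increase strictly under `DF` on all vectors not tangent to the orbits.
  There is NO condition on the growth of `DF` along the orbits, which may dominate the transversal
  expansion and contraction or not, at some places or everywhere (`F` is in general not partially
  hyperbolic on `K`). The orbits may be noncompact, and dense in `K`;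
* `ChainRecOn F K y` (`Pool/Agent/R774/ClStmt.lean`): `y` is chain recurrent for `F` restricted to `K`;
* `IsHypAcrossAct r F y`: `y` lies in such a set `K`, for some `k`, `l` and some action of class `C^r`,
  and is chain recurrent in it.

Examples (not part of the proof): automorphisms of circle bundles (or of fibre products of `k` circle
bundles) over hyperbolic sets, with arbitrary orientation preserving diffeomorphisms on the circles, for
instance `(x, θ₁, …, θ_k) ↦ (f x, g¹_x θ₁, …, g^k_x θ_k)` with `f` Anosov on any closed manifold, and
toral extensions of them; `F x = φ (u x) x` for an Anosov flow `φ` and any function `u > 0` such that `F`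
is a diffeomorphism.
-/

set_option autoImplicit false

open scoped Manifold ContDiff Topology
open Filter Set

universe u

namespace Pool.Agent.Results.MP_1e8d1a_an.HyperbolicAcrossActions

open Pool.Agent.H718R2.G Pool.Agent.K6.H72.FL

/-- Let `N` be a closed manifold, `1 ≤ r ≤ ∞`, `F ∈ Diff^r(N)` and `z ∈ N`. Suppose that arbitrarily
`C^r`-close to `F` there are diffeomorphisms `F'` (for example `F' = F`) for which `z` is a limit of
points `y` which are chain recurrent in a closed invariant set `K` on which `F'` is hyperbolic
transversally to the orbits of an action of some `ℝᵏ × 𝕋ˡ` of class `C^r`, and near which `F'` maps orbits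
to orbits, nondecreasingly in each of the `k` real coordinates and by translations in the toral
coordinates, otherwise arbitrarily. Then the conclusion of the `C^r` closing lemma holds for `F` at
`z`. -/
theorem result {n : ℕ} {N : Type u} [TopologicalSpace N] [T2Space N] [CompactSpace N]
    [ChartedSpace (V n) N] [IsManifold (𝓡 n) ∞ N] (r : ℕ∞) (hr : 1 ≤ r) (F : DiffM n N r) (z : N)
    (h : ∀ U : Set (DiffM n N r), IsOpen[strongTop n N r] U → F ∈ U →
      ∃ F' ∈ U, z ∈ closure {y | IsHypAcrossAct (n := n) r F' y}) :
    ∀ U : Set (DiffM n N r), IsOpen[strongTop n N r] U → F ∈ U → ∃ G ∈ U, IsPer G z :=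
  main_act r hr F z h

/-- The principle behind the result, without hyperbolicity: if for every `η > 0` there is, starting
arbitrarily close to `z`, a periodic pseudo-orbit of `F` all of whose jumps are along the orbits of the
action, of size at most `η` in the real directions and arbitrary in the toral directions, and on the
orbits of its points `F` is of the form `LeafMap`, then `F` can be closed at `z`. -/
theorem along_orbits {k l n : ℕ} {N : Type u} [TopologicalSpace N] [T2Space N] [CompactSpace N]
    [ChartedSpace (V n) N] [IsManifold (𝓡 n) ∞ N] (r : ℕ∞) (hr : 1 ≤ r) (F : DiffM n N r)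
    (A : V k × V l → N → N) (hA : CrAction k l n N r A) (z : N)
    (h : ∀ η > 0, ∀ W ∈ 𝓝 z, ∃ (m : ℕ) (y : ℕ → N) (e : ℕ → V k × V l), 1 ≤ m ∧ y 0 ∈ W ∧
      y m = y 0 ∧ ∀ i < m, LeafMap A F (y i) ∧ ‖(e i).1‖ ≤ η ∧ y (i + 1) = A (e i) (F (y i))) :
    ∀ U : Set (DiffM n N r), IsOpen[strongTop n N r] U → F ∈ U → ∃ G ∈ U, IsPer G z :=
  closable_of_leaf_loops r hr F hA h

end Pool.Agent.Results.MP_1e8d1a_an.HyperbolicAcrossActions
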