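import Pool.Agent.K6.H72.LF.All

/-!
# The `C^r` closing lemma for diffeomorphisms which preserve a foliation by (dense) lines

`V n = ℝⁿ`, `DiffM n N r = Diff^r(N)`, `strongTop n N r` is its strong (Whitney) `C^r` topology (the
usual one, `N` being compact), `IsPer G z`: `z` is periodic for `G` (`Pool/Agent/H718R2/G0.lean`);
`NonWand F z`: `z` is nonwandering, `FreeTorus k n N R`: `R` is a free smooth action of `𝕋ᵏ = ℝᵏ/ℤᵏ`
(`Pool/Agent/W564/SC/Defs.lean`). So a closed connected `N` of dimension `n` with `FreeTorus n n N R` is
the torus `𝕋ⁿ`, on which `R` acts by the translations.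

* `Intg q`: `q` has integral coordinates (`Pool/Agent/K6/H72/LF/Torus.lean`);
* `HalfLines R F v`: `F` maps every half-line `{R (s v) x : s ≥ 0}` into the half-line
  `{R (t v) (F x) : t ≥ 0}`, i.e. `F` preserves the foliation by the lines parallel to `v` and its
  orientation; `IsLinPart R F A`: `A` is the linear part of `F` (the map on the first homology)
  (`Pool/Agent/K6/H72/LF/Foliation.lean`);
* `IdPlusHyp A v` (`Pool/Agent/K6/H72/LF/Lin.lean`): modulo the line `ℝ v`, the linear map `A` is the direct
  sum of the identity and a hyperbolic map;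
* `IsTorusPt n N F y` (`Pool/Agent/K6/H72/LF/All.lean`): `N = 𝕋ⁿ`, `y` is a nonwandering point of `F`, and
  `F` preserves the foliation by the lines parallel to some `v` and its orientation, where either
  `n = 2` and the slope is irrational, or `n` is arbitrary, the lines are dense and injective, and
  `IdPlusHyp A v` for the linear part `A` of `F`;
* `IsLinePt n N r F y` (`Pool/Agent/K6/H72/LF/Main.lean`; `RAction`, `LineMap`): there are a `C^r` action
  `R` of some `ℝᵏ` on `N` and a set `K` invariant under `F` and `R`, such that for `x ∈ K`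
  `F (R q x) = R (A q + g x q • v) (F x)`, with `IdPlusHyp A v`, `A v = lam v`, `g x q → 0` as `q → 0`
  uniformly in `x`, and `s ↦ lam s + g x (s v)` continuous and nondecreasing; and arbitrarily close to
  `y` there are `x ∈ K` with `F^m x = R b x`, `m ≥ 1`, for arbitrarily small `b`.

In the case of the torus `F` has the form `x ↦ A x + α + u(x) v` on `𝕋ⁿ = ℝⁿ/ℤⁿ`, with an arbitrary function
`u`. Nothing is assumed on the growth of `DF` along the lines, and the behaviour transversally to the
lines is elliptic, hyperbolic or mixed.
-/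

set_option autoImplicit false

open scoped Manifold ContDiff Topology

universe u

namespace Pool.Agent.Results.MP_1e8d1a_an.LinearFoliations

open Pool.Agent.H718R2.G Pool.Agent.W564.SC Pool.Agent.K6.H72.LF

/-- Let `N` be a closed manifold, `1 ≤ r ≤ ∞`, `F ∈ Diff^r(N)` and `z ∈ N`. Suppose that there are `F'`
arbitrarily `C^r`-close to `F` (for example `F' = F`) for which `z` is a limit of (for example, equal to)
points `y` with `IsTorusPt n N F' y` or `IsLinePt n N r F' y`. Then the conclusion of the `C^r` closing
lemma holds for `F` at `z`. In particular, every `C^r` diffeomorphism `F` of the torus `𝕋²` which preserves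
an oriented linear foliation of irrational slope can be `C^r`-closed at each of its nonwandering
points. -/
theorem result {n : ℕ} {N : Type u} [TopologicalSpace N] [T2Space N] [CompactSpace N]
    [ChartedSpace (V n) N] [IsManifold (𝓡 n) ∞ N] (r : ℕ∞) (hr : 1 ≤ r) (F : DiffM n N r) (z : N)
    (h : ∀ U : Set (DiffM n N r), IsOpen[strongTop n N r] U → F ∈ U →
      ∃ F' ∈ U, z ∈ closure {y | IsTorusPt n N F' y ∨ IsLinePt n N r F' y}) :
    ∀ U : Set (DiffM n N r), IsOpen[strongTop n N r] U → F ∈ U → ∃ G ∈ U, IsPer G z :=
  main r hr F z h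

/-- The special case of the torus `𝕋²`. -/
theorem torus_two {N : Type u} [TopologicalSpace N] [T2Space N] [CompactSpace N] [ConnectedSpace N]
    [ChartedSpace (V 2) N] [IsManifold (𝓡 2) ∞ N] (r : ℕ∞) (hr : 1 ≤ r) (F : DiffM 2 N r)
    (R : V 2 → N → N) (hR : FreeTorus 2 2 N R) (v : V 2) (hv : ∀ s : ℝ, Intg (s • v) → s = 0)
    (hF : HalfLines R F v) (z : N) (hz : NonWand F z) : Closable 2 N r F z :=
  closable_two r hr F hR hv hF hz

end Pool.Agent.Results.MP_1e8d1a_an.LinearFoliations
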