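import Pool.Agent.K6.H72.IV.Main
import Pool.Agent.K6.H72.FV.Main

/-!
# Points which cannot be closed: every return visits every neighbourhood at least `(log (1/δ))^(1/2)`
times, for all `r ≤ ∞`

`V n = ℝⁿ`, `DiffM n N r = Diff^r(N)`, `strongTop n N r` is its strong (Whitney) `C^r` topology (the
usual one, `N` being compact) (`Pool/Agent/H718R2/G0.lean`). `Closable n N r f z`: every neighbourhood of
`f` in `Diff^r(N)` contains some `g` for which `z` is periodic; `GoodChart n N χ z`: `χ` is a chart of the
smooth structure of `N` with `χ z = 0` whose target contains the closed unit ball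
(`Pool/Agent/W564/SC/Defs.lean`). `Per f`: the periodic points (`Pool/Agent/TH80/OMS/SymDefs.lean`).
`BaireSet n N r S`: `S` contains a countable intersection of open dense subsets of `Diff^r(N)`
(`Pool/Agent/Y504/CO/KSG.lean`).

* `visits f W w T` (`Pool/Agent/K6/H72/FV/Abs.lean`): the number of the `i`, `0 < i < T`, with
  `f^i(w) ∈ W`;
* `ManyVisits x f χ z` (`Pool/Agent/K6/H72/IV/Main.lean`): every neighbourhood `W` of `z` contains many
  points of every orbit segment which returns near `z`: there are a neighbourhood `W'` of `z` and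
  `C > 0` such that for all `w ∈ W'` and `T ≥ 1` with `f^T(w) ∈ W'` the number `v` of the visits to `W`
  satisfies `|f^T(w) - w| ≥ exp(- C (v + 1)^x)` (in the chart `χ`); that is, a return with displacement
  `δ` visits `W` at least `c (log (1/δ))^(1/x) - 1` times;
* `Admissible r x` (same file): `x > 0` and `2^(-x) + 3^(-x) + ⋯ + (k + 1)^(-x) < 1` for all integers
  `k ≤ r`. For `r = ∞` these are the `x > 1` with `ζ(x) ≤ 2`, that is `x ≥ 1.7287`; for `r = 2` they are
  the `x > 0.788`.

The time `T` of the return and the growth of the derivatives of `f^T` play no role. The proof uses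
perturbations which vanish at the `k - 1` visits closest to the return (`closing with interpolation`,
`Pool/Agent/K6/H72/IV/Cli.lean`).
-/

set_option autoImplicit false

open scoped Manifold ContDiff Topology

universe u

namespace Pool.Agent.Results.MP_1e8d1a_an.ManyVisits

open Pool.Agent.H718R2.G Pool.Agent.W564.SC Pool.Agent.TH80.OMS Pool.Agent.Y504.CO.KSG
  Pool.Agent.K6.H72.IV
open Pool.Agent.K6.H72.FV (visits)

/-- Let `N` be a closed manifold, `1 ≤ r ≤ ∞` and `x` admissible for `r`; the exponent `x = 2` is
admissible for all `r ≤ ∞`, and `x = 4/5` for `r ≤ 2`.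
(1) Let `f ∈ Diff^r(N)` and `z ∈ N` be ARBITRARY. Either the conclusion of the `C^r` closing lemma holds
for `f` at `z`, or every orbit segment which returns near `z` with displacement `δ` visits every
neighbourhood of `z` at least `c (log (1/δ))^(1/x) - 1` times.
(2) For all `f` in a Baire set of `Diff^r(N)` all returns near a point `z` outside of the closure of the
set of the periodic points are as in the second alternative of (1). -/
theorem result {n : ℕ} {N : Type u} [MetricSpace N] [CompactSpace N]
    [ChartedSpace (V n) N] [IsManifold (𝓡 n) ∞ N] (r : ℕ∞) (hr : 1 ≤ r) :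
    (∀ x : ℝ, Admissible r x → ∀ (f : DiffM n N r) (z : N) (χ : OpenPartialHomeomorph N (V n)),
      GoodChart n N χ z → Closable n N r f z ∨ ManyVisits x f χ z) ∧
    Admissible r 2 ∧ (r ≤ 2 → Admissible r (4 / 5)) ∧
    BaireSet n N r {f | ∀ x : ℝ, Admissible r x → ∀ (z : N) (χ : OpenPartialHomeomorph N (V n)),
      GoodChart n N χ z → z ∉ closure (Per f) → ManyVisits x f χ z} :=
  ⟨fun _ hx f z χ hχ => dichotomy hr hx f z χ hχ, admissible_two r, admissible_four_fifths,
    generic r hr⟩

/-- In particular, `f` can be `C^r`-closed at `z`, for all `r ≤ ∞`, if there are returns arbitrarily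
close to `z` which visit a fixed neighbourhood of `z` a bounded number of times. -/
theorem bounded {n : ℕ} {N : Type u} [MetricSpace N] [CompactSpace N]
    [ChartedSpace (V n) N] [IsManifold (𝓡 n) ∞ N] (r : ℕ∞) (hr : 1 ≤ r) (f : DiffM n N r) (z : N)
    (W : Set N) (hW : W ∈ 𝓝 z) (M : ℕ)
    (h : ∀ W' ∈ 𝓝 z, ∃ w ∈ W', ∃ T : ℕ, 1 ≤ T ∧ f^[T] w ∈ W' ∧ visits f W w T ≤ M) :
    Closable n N r f z :=
  Pool.Agent.K6.H72.FV.closable_of_bounded hr f z W hW M h

end Pool.Agent.Results.MP_1e8d1a_an.ManyVisits
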