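import Pool.Agent.K6.H72.HM.Main

/-!
# The `C^r` closing lemma at homoclinic points of normally hyperbolic sets with arbitrary dynamics

`V n = ℝⁿ`, `DiffM n N r = Diff^r(N)`, `strongTop n N r` is its strong (Whitney) `C^r` topology (the
usual one, `N` being compact), `IsPer G z`: `z` is periodic for `G` (`Pool/Agent/H718R2/G0.lean`).

From `Pool/Agent/K6/H72/HM/Hom.lean` and `Pool/Agent/K6/H72/HM/Main.lean`:
* `NormHyp F p f A C φ`: `K = {φ(x, 0, 0)}`, `x ∈ X`, `X` a compact space, is a (topologically trivial,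
  possibly nonsmooth) normally hyperbolic set of period `p`: `φ(x, a, b)` is continuous for
  `‖a‖, ‖b‖ ≤ 1`, and `F^p (φ(x, a, C_x b)) = φ(f x, A_x a, b)` with `‖A_x‖, ‖C_x‖ ≤ l < 1`. The dynamics
  `f : X → X` on the set is ARBITRARY;
* `HomPt F f φ y x₊ x₋`: `y` is a homoclinic point of `K`: `F^R y = φ(x₊, a, 0)` and `F^R' (φ(x₋, 0, b)) = y`
  for some `R`, `R'`, `a`, `b`, no `F^j (K)` contains `y`, and from any neighbourhood of `x₊` to any
  neighbourhood of `x₋` there are orbits of `f` of arbitrarily large lengths. The stable and unstable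
  sets of `K` may be tangent at `y`, and may intersect in any dimension;
* `IsHom F y`: `y` is a homoclinic point of some such set.

Examples (the linearization theorems used here are not part of the proof): homoclinic points, possibly
tangencies, of normally hyperbolic invariant manifolds `K` with arbitrary dynamics, when `x₊` leads to
`x₋` by orbits in `K`; the case that `K` is a hyperbolic set; products `f × h`, see `product` below.
-/

set_option autoImplicit false

open scoped Manifold ContDiff Topology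
open Filter Set

universe u v

namespace Pool.Agent.Results.MP_1e8d1a_an.NormallyHyperbolicHomoclinic

open Pool.Agent.H718R2.G Pool.Agent.K6.H72.HM

/-- Let `N` be a closed manifold, `1 ≤ r ≤ ∞`, `F ∈ Diff^r(N)` and `z ∈ N`. Suppose that arbitrarily
`C^r`-close to `F` there are diffeomorphisms `F'` (for example `F' = F`) for which `z` is a limit of
homoclinic points `y` (transverse or not) of compact normally hyperbolic periodic sets on which the
dynamics is arbitrary, where the stable and the unstable fibre containing `y` are connected by orbits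
in the set of arbitrarily large lengths. Then the conclusion of the `C^r` closing lemma holds for `F` at
`z`. -/
theorem result {n : ℕ} {N : Type u} [TopologicalSpace N] [T2Space N] [CompactSpace N]
    [ChartedSpace (V n) N] [IsManifold (𝓡 n) ∞ N] (r : ℕ∞) (hr : 1 ≤ r) (F : DiffM n N r) (z : N)
    (h : ∀ U : Set (DiffM n N r), IsOpen[strongTop n N r] U → F ∈ U →
      ∃ F' ∈ U, z ∈ closure {y | IsHom.{u, v} F' y}) :
    ∀ U : Set (DiffM n N r), IsOpen[strongTop n N r] U → F ∈ U → ∃ G ∈ U, IsPer G z :=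
  main r hr F z h

/-- Special case: on a closed invariant set `F` is a product `f × h`, where `f` is an ARBITRARY
homeomorphism of a compact space `X`, and `y` is a homoclinic point (possibly a tangency) of a periodic
saddle `ψ(0, 0)` of `h`, of period `p`. Then `F` can be closed at `Θ(x, y)` for all points `x` which are
nonwandering for `f` along times in a residue class modulo `p` (for `p = 1`: along arbitrarily large
times). -/
theorem product {n : ℕ} {N : Type u} [TopologicalSpace N] [T2Space N] [CompactSpace N]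
    [ChartedSpace (V n) N] [IsManifold (𝓡 n) ∞ N] (r : ℕ∞) (hr : 1 ≤ r) (F : DiffM n N r)
    {X Y Es Eu : Type*} [TopologicalSpace X] [CompactSpace X] [TopologicalSpace Y]
    [NormedAddCommGroup Es] [NormedSpace ℝ Es] [NormedAddCommGroup Eu] [NormedSpace ℝ Eu]
    (f : X ≃ₜ X) (h : Y → Y)
    (Θ : X × Y → N) (hΘ : Continuous Θ) (hinj : Function.Injective Θ)
    (hconj : ∀ x y, F (Θ (x, y)) = Θ (f x, h y))
    (p : ℕ) (hp : 1 ≤ p) (A : Es →L[ℝ] Es) (C : Eu →L[ℝ] Eu) (hA : ‖A‖ < 1) (hC : ‖C‖ < 1)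
    (ψ : Es × Eu → Y) (hψ : ContinuousOn ψ {q | ‖q.1‖ ≤ 1 ∧ ‖q.2‖ ≤ 1})
    (hloc : ∀ a b, ‖a‖ ≤ 1 → ‖b‖ ≤ 1 → h^[p] (ψ (a, C b)) = ψ (A a, b))
    (y : Y) (R₁ R₂ : ℕ) (a : Es) (b : Eu) (ha : ‖a‖ ≤ 1) (hb : ‖b‖ ≤ 1)
    (hs : h^[R₁] y = ψ (a, 0)) (hu : h^[R₂] (ψ (0, b)) = y) (hoff : ∀ j, h^[j] (ψ (0, 0)) ≠ y)
    (x : X) (hx : ∀ W ∈ 𝓝 x, ∀ n₀ : ℕ, ∃ m, n₀ ≤ m ∧ ∃ x' ∈ W, f^[R₁ + p * m + R₂] x' ∈ W) :
    ∀ U : Set (DiffM n N r), IsOpen[strongTop n N r] U → F ∈ U → ∃ G ∈ U, IsPer G (Θ (x, y)) :=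
  Pool.Agent.K6.H72.HM.product r hr F f h Θ hΘ hinj hconj p hp A C hA hC ψ hψ hloc y R₁ R₂ a b ha hb
    hs hu hoff x hx

end Pool.Agent.Results.MP_1e8d1a_an.NormallyHyperbolicHomoclinic
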